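import Pool.Agent.Lib.MP_c7af3c_ag.GEN.H82.Gmul

/-!
# MP_c7af3c_ag, project GEN, module GVAL: values of one function at `K`-rational points
-/

set_option autoImplicit false

namespace Pool.Agent.Gen.H82

open AlgebraicGeometry CategoryTheory CategoryTheory.Limits
open Pool.Agent.Gen

theorem gval (h1 : GratStatement) : GvalStatement := by
  intro k K' _ _ _ A a ha Ch W f
  have hpb : IsPullback (pullback.fst a a) (pullback.snd a a) a a := IsPullback.of_hasPullback a a
  obtain ⟨T, hT1, hT2⟩ := h1 k K' A (pullback a a) a Ch (pullback.fst a a) (pullback.snd a a) hpb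
    (pullback.fst a a ⁻¹ᵁ W) (compact_of_pullback a _ _ hpb _)
    (((pullback.fst a a).appLE W _ le_rfl).hom f)
  refine ⟨T, hT1, ?_⟩
  intro K hK y hy hrat h
  have e1 : pullback.lift y y rfl ≫ pullback.fst a a = y := pullback.lift_fst _ _ _
  have e2 : pullback.lift y y rfl ≫ pullback.snd a a = y := pullback.lift_snd _ _ _
  have key : ∀ (t : Spec (CommRingCat.of K') ⟶ A)
      (_ : t = pullback.lift y y rfl ≫ pullback.fst a a) (ht : ⊤ ≤ t ⁻¹ᵁ W),
      kval t W ht f ∈ K := by
    intro t ht hU
    subst ht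
    rw [H96.kval_comp (pullback.lift y y rfl) (pullback.fst a a) W _ le_rfl hU hU f]
    refine hT2 K hK (pullback.lift y y rfl) ?_ ?_ ?_ hU
    · rw [← Category.assoc, e1]
      exact hy
    · rw [e1]
      exact hrat
    · rw [e2]
      exact hrat
  exact key y e1.symm h

end Pool.Agent.Gen.H82
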