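import Pool.Agent.Lib.MP_c7af3c_ag.GEN.Groups
import Pool.Agent.Lib.MP_c7af3c_ag.GEN.H96.Sfrac

/-!
# MP_c7af3c_ag, project GEN, module GMUL: products of `K`-rational points are `K`-rational
-/

set_option autoImplicit false

namespace Pool.Agent.Gen.H82

open AlgebraicGeometry CategoryTheory CategoryTheory.Limits MonoidalCategory
  CartesianMonoidalCategory MonObj
open Pool.Agent.Gen

/-- every open subset of `A ×_k A` is compact for `A` proper over a field -/
theorem compact_of_pullback {k : Type} [Field k] {A Z : Scheme.{0}}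
    (a : A ⟶ Spec (CommRingCat.of k)) [IsProper a] (p q : Z ⟶ A) (h : IsPullback p q a a)
    (W : Z.Opens) : IsCompact W.carrier := by
  have hp : IsProper p := MorphismProperty.of_isPullback (P := @IsProper) h.flip inferInstance
  have h1 : IsProper (p ≫ a) := inferInstance
  have h2 : IsLocallyNoetherian Z := LocallyOfFiniteType.isLocallyNoetherian (p ≫ a)
  have h3 : CompactSpace Z := QuasiCompact.compactSpace_of_compactSpace (p ≫ a)
  have h4 : IsNoetherian Z := {}
  have h5 : TopologicalSpace.NoetherianSpace Z := inferInstance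
  exact TopologicalSpace.NoetherianSpace.isCompact _

/-- the product in `Over S` is the fibre product -/
theorem isPullback_prod {S : Scheme.{0}} [CartesianMonoidalCategory (Over S)] (A : Over S) :
    IsPullback (fst A A).left (snd A A).left A.hom A.hom := by
  have w : (fst A A).left ≫ A.hom = (snd A A).left ≫ A.hom := by
    rw [Over.w, Over.w]
  refine ⟨⟨w⟩, ⟨PullbackCone.IsLimit.mk w
    (fun s => (lift (Over.homMk (U := Over.mk (s.fst ≫ A.hom)) s.fst rfl)
      (Over.homMk (U := Over.mk (s.fst ≫ A.hom)) s.snd s.condition.symm)).left) ?_ ?_ ?_⟩⟩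
  · intro s
    rw [← Over.comp_left, lift_fst]
    rfl
  · intro s
    rw [← Over.comp_left, lift_snd]
    rfl
  · intro s m h1 h2
    have h3 : m ≫ (A ⊗ A).hom = s.fst ≫ A.hom := by
      rw [← h1, Category.assoc, Over.w]
    have h4 : Over.homMk (U := Over.mk (s.fst ≫ A.hom)) m h3
        = lift (Over.homMk (U := Over.mk (s.fst ≫ A.hom)) s.fst rfl)
          (Over.homMk (U := Over.mk (s.fst ≫ A.hom)) s.snd s.condition.symm) := by
      apply CartesianMonoidalCategory.hom_ext
      · rw [lift_fst]
        ext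
        exact h1
      · rw [lift_snd]
        ext
        exact h2
    exact congrArg (fun t => t.left) h4

theorem gmul (h1 : GratStatement) : GmulStatement := by
  intro k K' _ _ _ _ A _ hA Ch
  have hpb := isPullback_prod A
  have hgr : ∀ i, ∀ b ∈ Ch.gens i, ∃ T : Set k, T.Finite ∧ ∀ K : Subfield K',
      (∀ t ∈ T, algebraMap k K' t ∈ K) →
      ∀ y : Spec (CommRingCat.of K') ⟶ (A ⊗ A).left,
        y ≫ (fst A A).left ≫ A.hom = Spec.map (CommRingCat.ofHom (algebraMap k K')) →
        Ch.IsRat K (y ≫ (fst A A).left) → Ch.IsRat K (y ≫ (snd A A).left) →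
        ∀ h : ⊤ ≤ y ⁻¹ᵁ ((μ : A ⊗ A ⟶ A).left ⁻¹ᵁ Ch.U i),
          kval y _ h (((μ : A ⊗ A ⟶ A).left.appLE (Ch.U i) _ le_rfl).hom b) ∈ K := by
    intro i b _
    exact h1 k K' A.left (A ⊗ A).left A.hom Ch (fst A A).left (snd A A).left hpb
      ((μ : A ⊗ A ⟶ A).left ⁻¹ᵁ Ch.U i) (compact_of_pullback A.hom _ _ hpb _)
      (((μ : A ⊗ A ⟶ A).left.appLE (Ch.U i) _ le_rfl).hom b)
  choose! T hT1 hT2 using hgr
  refine ⟨⋃ i, ⋃ b ∈ Ch.gens i, T i b, ?_, ?_⟩
  · have := Ch.fin
    refine Set.finite_iUnion fun i => ?_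
    exact (Ch.gens_fin i).biUnion fun b hb => hT1 i b hb
  · intro K hK x y hx hy i h b hb
    have e1 : (x * y).left = (lift x y).left ≫ (μ : A ⊗ A ⟶ A).left := rfl
    have key : ∀ (t : Spec (CommRingCat.of K') ⟶ A.left)
        (_ : t = (lift x y).left ≫ (μ : A ⊗ A ⟶ A).left) (ht : ⊤ ≤ t ⁻¹ᵁ Ch.U i),
        kval t (Ch.U i) ht b ∈ K := by
      intro t ht hU
      subst ht
      rw [H96.kval_comp (lift x y).left (μ : A ⊗ A ⟶ A).left (Ch.U i) _ le_rfl hU hU b]
      refine hT2 i b hb K ?_ (lift x y).left ?_ ?_ ?_ hU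
      · intro t ht
        refine hK t ?_
        exact Set.mem_iUnion.2 ⟨i, Set.mem_iUnion₂.2 ⟨b, hb, ht⟩⟩
      · have h3 : lift x y ≫ fst A A = x := lift_fst _ _
        have h4 : (lift x y).left ≫ (fst A A).left = x.left := by
          rw [← Over.comp_left, h3]
        rw [← Category.assoc, h4]
        exact Over.w x
      · have h3 : lift x y ≫ fst A A = x := lift_fst _ _
        have h4 : (lift x y).left ≫ (fst A A).left = x.left := by
          rw [← Over.comp_left, h3]
        rw [h4]
        exact hx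
      · have h3 : lift x y ≫ snd A A = y := lift_snd _ _
        have h4 : (lift x y).left ≫ (snd A A).left = y.left := by
          rw [← Over.comp_left, h3]
        rw [h4]
        exact hy
    exact key _ e1 h

end Pool.Agent.Gen.H82
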